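import Pool.Agent.Y579.NG.Extra

/-!
`NON × LLPO × LLPO` is Weihrauch reducible to Ramsey's theorem for pairs and three colours.
-/

namespace Pool.Agent.Y235.NG

open Pool.Agent.Y579.NG Pool.Agent.Results.MP_743c94_lc.Full

/-- some element `i` of the list satisfies `x ≤ i` -/
def anyGe (L : List ℕ) (x : ℕ) : Bool :=
  decide (L.findIdx (fun i => decide (x ≤ i)) < L.length)

/-- some element `i` of the list satisfies `i % 4 = b` -/
def anyMod (L : List ℕ) (b : ℕ) : Bool :=
  decide (L.findIdx (fun i => decide (i % 4 = b)) < L.length)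

lemma anyGe_iff {L : List ℕ} {x : ℕ} : anyGe L x = true ↔ ∃ i ∈ L, x ≤ i := by
  unfold anyGe
  rw [decide_eq_true_iff, List.findIdx_lt_length]
  simp

lemma anyMod_iff {L : List ℕ} {b : ℕ} : anyMod L b = true ↔ ∃ i ∈ L, i % 4 = b := by
  unfold anyMod
  rw [decide_eq_true_iff, List.findIdx_lt_length]
  simp

lemma primrec_anyGe : Primrec₂ anyGe := by
  have h1 : Primrec₂ (fun (q : List ℕ × ℕ) (i : ℕ) => decide (q.2 ≤ i)) :=
    (PrimrecRel.comp Primrec.nat_le (Primrec.snd.comp Primrec.fst) Primrec.snd).decide
  have h2 : Primrec (fun q : List ℕ × ℕ => q.1.findIdx (fun i => decide (q.2 ≤ i))) :=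
    Primrec.list_findIdx Primrec.fst h1
  exact (PrimrecRel.comp Primrec.nat_lt h2 (Primrec.list_length.comp Primrec.fst)).decide

lemma primrec_anyMod : Primrec₂ anyMod := by
  have h1 : Primrec₂ (fun (q : List ℕ × ℕ) (i : ℕ) => decide (i % 4 = q.2)) :=
    (PrimrecRel.comp Primrec.eq (Primrec.nat_mod.comp Primrec.snd (Primrec.const 4))
      (Primrec.snd.comp Primrec.fst)).decide
  have h2 : Primrec (fun q : List ℕ × ℕ => q.1.findIdx (fun i => decide (i % 4 = q.2))) :=
    Primrec.list_findIdx Primrec.fst h1
  exact (PrimrecRel.comp Primrec.nat_lt h2 (Primrec.list_length.comp Primrec.fst)).decide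

/-! ### The forward map -/

/-- The bit `k` of the colouring, from an initial segment of the instance. -/
noncomputable def col3 (τ : List Bool) (k : ℕ) : Bool :=
  bif decide (k % 2 = 0) then anyGe (flips (k / 2).unpair.2 τ) (k / 2).unpair.1
  else base (evens (k / 2).unpair.2 τ) (k / 2).unpair.1

lemma primrec_col3 : Primrec₂ col3 := by
  have hh : Primrec (fun q : List Bool × ℕ => (q.2 / 2).unpair) :=
    Primrec.unpair.comp (Primrec.nat_div.comp Primrec.snd (Primrec.const 2))
  have h1 : Primrec (fun q : List Bool × ℕ => (q.2 / 2).unpair.1) := Primrec.fst.comp hh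
  have h2 : Primrec (fun q : List Bool × ℕ => (q.2 / 2).unpair.2) := Primrec.snd.comp hh
  have h3 : Primrec (fun q : List Bool × ℕ => decide (q.2 % 2 = 0)) :=
    (PrimrecRel.comp Primrec.eq (Primrec.nat_mod.comp Primrec.snd (Primrec.const 2))
      (Primrec.const 0)).decide
  have h4 : Primrec (fun q : List Bool × ℕ =>
      anyGe (flips (q.2 / 2).unpair.2 q.1) (q.2 / 2).unpair.1) :=
    primrec_anyGe.comp (primrec_flips.comp h2 Primrec.fst) h1
  have h5 : Primrec (fun q : List Bool × ℕ =>
      base (evens (q.2 / 2).unpair.2 q.1) (q.2 / 2).unpair.1) :=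
    primrec_base.comp (primrec_evens.comp h2 Primrec.fst) h1
  exact Primrec.cond h3 h4 h5

/-- The forward word function. -/
noncomputable def wordK3 (τ : List Bool) (k : ℕ) : Option Bool :=
  bif decide (τ.length = 2 * (k / 2).unpair.2) then some (col3 τ k) else none

lemma primrec_wordK3 : Primrec₂ wordK3 := by
  have hh : Primrec (fun q : List Bool × ℕ => (q.2 / 2).unpair.2) :=
    Primrec.snd.comp (Primrec.unpair.comp (Primrec.nat_div.comp Primrec.snd (Primrec.const 2)))
  have h1 : Primrec (fun q : List Bool × ℕ => decide (q.1.length = 2 * (q.2 / 2).unpair.2)) :=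
    (PrimrecRel.comp Primrec.eq (Primrec.list_length.comp Primrec.fst)
      (Primrec.nat_double.comp hh)).decide
  exact Primrec.cond h1 (Primrec.option_some.comp primrec_col3) (Primrec.const none)

/-- The colouring attached to an instance. -/
noncomputable def mapK3 (r : ℕ → Bool) (k : ℕ) : Bool :=
  col3 (pre r (2 * (k / 2).unpair.2)) k

lemma computes_mapK3 (r : ℕ → Bool) : Computes wordK3 r (mapK3 r) := by
  intro m
  constructor
  · refine ⟨2 * (m / 2).unpair.2, ?_⟩
    simp [wordK3, mapK3]
  · intro k b hb
    by_cases hk : k = 2 * (m / 2).unpair.2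
    · subst hk
      simp only [wordK3, pre_length, decide_true, cond_true, Option.some.injEq] at hb
      exact hb.symm
    · simp [wordK3, hk] at hb

lemma mapK3_even {r : ℕ → Bool} {x y : ℕ} : mapK3 r (2 * Nat.pair x y) = true ↔
    ∃ i, x ≤ i ∧ i < y ∧ right r i = true := by
  have h1 : 2 * Nat.pair x y / 2 = Nat.pair x y := by omega
  have h2 : 2 * Nat.pair x y % 2 = 0 := by omega
  unfold mapK3 col3
  rw [h1, h2, Nat.unpair_pair]
  simp only [decide_true, cond_true]
  rw [anyGe_iff]
  constructor
  · rintro ⟨i, hi, hx⟩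
    obtain ⟨h3, h4⟩ := (mem_flips_pre r le_rfl).1 hi
    exact ⟨i, hx, h3, h4⟩
  · rintro ⟨i, hx, h3, h4⟩
    exact ⟨i, (mem_flips_pre r le_rfl).2 ⟨h3, h4⟩, hx⟩

lemma mapK3_odd {r : ℕ → Bool} {x y : ℕ} : mapK3 r (2 * Nat.pair x y + 1) =
    base (pre (left r) y) x := by
  have h1 : (2 * Nat.pair x y + 1) / 2 = Nat.pair x y := by omega
  have h2 : (2 * Nat.pair x y + 1) % 2 = 1 := by omega
  unfold mapK3 col3
  rw [h1, h2, Nat.unpair_pair]
  simp only [one_ne_zero, decide_false, cond_false]
  rw [evens_pre r (by omega)]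

/-! ### The backward map -/

/-- `a` is the first element of the set `h`. -/
def FirstOne (h : ℕ → Bool) (a : ℕ) : Prop := h a = true ∧ ∀ i < a, h i = false

lemma FirstOne.unique {h : ℕ → Bool} {a a' : ℕ} (h1 : FirstOne h a) (h2 : FirstOne h a') :
    a = a' := by
  rcases lt_trichotomy a a' with h3 | h3 | h3
  · have := h2.2 a h3
    rw [h1.1] at this
    exact absurd this (by simp)
  · exact h3
  · have := h1.2 a' h3
    rw [h2.1] at this
    exact absurd this (by simp)

lemma flips_first {s : ℕ → Bool} {k N a : ℕ} (hk : 2 * N ≤ k) :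
    (flips N (pre s k))[0]? = some a ↔ a < N ∧ FirstOne (right s) a := by
  rw [← List.head?_eq_getElem?, flips, List.head?_filter, List.find?_range_eq_some]
  have h1 : ∀ j, j < N → (pre s k).getD (2 * j + 1) false = right s j := by
    intro j hj
    rw [pre_getD s (by omega)]
    rfl
  constructor
  · rintro ⟨h2, h3, h4⟩
    rw [List.mem_range] at h3
    refine ⟨h3, ?_, fun i hi => ?_⟩
    · rw [← h1 a h3]
      simpa using h2
    · have := h4 i hi
      rw [h1 i (by omega)] at this
      simpa using this
  · rintro ⟨h2, h3, h4⟩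
    refine ⟨?_, List.mem_range.2 h2, fun i hi => ?_⟩
    · rw [h1 a h2]
      simpa using h3
    · rw [h1 i (by omega), h4 i hi]
      simp

/-- The answers computed from an initial segment of the pair (instance, homogeneous set). -/
noncomputable def ansW (τ : List Bool) (b : ℕ) : Option Bool :=
  ((flips (τ.length / 2) τ)[0]?).bind fun a =>
    bif decide (4 * a ≤ τ.length) then some (anyMod (flips a (evens (2 * a) τ)) b) else none

lemma primrec_ansW : Primrec₂ ansW := by
  have hhalf : Primrec (fun τ : List Bool => τ.length / 2) :=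
    Primrec.nat_div.comp Primrec.list_length (Primrec.const 2)
  have hfl : Primrec (fun τ : List Bool => flips (τ.length / 2) τ) :=
    primrec_flips.comp hhalf Primrec.id
  have h0 : Primrec (fun q : List Bool × ℕ => (flips (q.1.length / 2) q.1)[0]?) :=
    Primrec.list_getElem?.comp (hfl.comp Primrec.fst) (Primrec.const 0)
  have h2 : Primrec (fun q : (List Bool × ℕ) × ℕ => decide (4 * q.2 ≤ q.1.1.length)) :=
    (PrimrecRel.comp Primrec.nat_le (Primrec.nat_mul.comp (Primrec.const 4) Primrec.snd)
      (Primrec.list_length.comp (Primrec.fst.comp Primrec.fst))).decide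
  have h3 : Primrec (fun q : (List Bool × ℕ) × ℕ =>
      anyMod (flips q.2 (evens (2 * q.2) q.1.1)) q.1.2) :=
    primrec_anyMod.comp (primrec_flips.comp Primrec.snd
      (primrec_evens.comp (Primrec.nat_double.comp Primrec.snd)
        (Primrec.fst.comp Primrec.fst))) (Primrec.snd.comp Primrec.fst)
  exact Primrec.option_bind h0 (Primrec.cond h2 (Primrec.option_some.comp h3) (Primrec.const none))

/-- The backward word function. -/
noncomputable def wordH3 (τ : List Bool) (m : ℕ) : Option Bool :=
  bif decide (m % 2 = 0) then τ[m + 1]? else ansW τ (m / 2 % 2)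

lemma primrec_wordH3 : Primrec₂ wordH3 := by
  have h1 : Primrec (fun q : List Bool × ℕ => decide (q.2 % 2 = 0)) :=
    (PrimrecRel.comp Primrec.eq (Primrec.nat_mod.comp Primrec.snd (Primrec.const 2))
      (Primrec.const 0)).decide
  have h2 : Primrec (fun q : List Bool × ℕ => ansW q.1 (q.2 / 2 % 2)) :=
    primrec_ansW.comp Primrec.fst (Primrec.nat_mod.comp
      (Primrec.nat_div.comp Primrec.snd (Primrec.const 2)) (Primrec.const 2))
  exact Primrec.cond h1 (Primrec.list_getElem?.comp Primrec.fst (Primrec.succ.comp Primrec.snd)) h2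

/-- the answer number `b` -/
noncomputable def an (r : ℕ → Bool) (a b : ℕ) : Bool := anyMod (flips a (pre r (2 * a))) b

/-- the answers -/
noncomputable def out (s : ℕ → Bool) (a : ℕ) : ℕ → Bool :=
  join (right s) (join (fun _ => an (left s) a 0) (fun _ => an (left s) a 1))

/-- The backward map, defined when the set is not empty. -/
noncomputable def mapH3 : (ℕ → Bool) →. (ℕ → Bool) := fun s =>
  ⟨∃ a : ℕ, FirstOne (right s) a, fun hd => out s hd.choose⟩

lemma mem_mapH3 {s q : ℕ → Bool} : q ∈ mapH3 s ↔ ∃ a, FirstOne (right s) a ∧ q = out s a := by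
  constructor
  · rintro ⟨hd, rfl⟩
    have hd' : ∃ a : ℕ, FirstOne (right s) a := hd
    exact ⟨hd'.choose, hd'.choose_spec, rfl⟩
  · rintro ⟨a, ha, rfl⟩
    have hd : ∃ a : ℕ, FirstOne (right s) a := ⟨a, ha⟩
    refine ⟨hd, ?_⟩
    have e := ha.unique hd.choose_spec
    change out s hd.choose = _
    rw [← e]

lemma computes_mapH3 {s q : ℕ → Bool} (hq : q ∈ mapH3 s) : Computes wordH3 s q := by
  obtain ⟨a, ha, rfl⟩ := mem_mapH3.1 hq
  intro m
  by_cases hm : m % 2 = 0
  · have hval : out s a m = s (m + 1) := by
      have : 2 * (m / 2) + 1 = m + 1 := by omega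
      simp only [out, join, hm, if_true, right, this]
    rw [hval]
    constructor
    · refine ⟨m + 2, ?_⟩
      simp only [wordH3, hm, decide_true, cond_true]
      exact pre_getElem? s (by omega)
    · intro k v hv
      simp only [wordH3, hm, decide_true, cond_true] at hv
      exact pre_getElem?_some hv
  · have hval : out s a m = an (left s) a (m / 2 % 2) := by
      rcases Nat.mod_two_eq_zero_or_one (m / 2) with h | h
      · simp only [out, join, hm, if_false, h, if_true]
      · simp only [out, join, hm, if_false, h, one_ne_zero]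
    rw [hval]
    have hw : ∀ τ, wordH3 τ m = ansW τ (m / 2 % 2) := by
      intro τ; simp [wordH3, hm]
    simp only [hw]
    constructor
    · refine ⟨4 * a + 4, ?_⟩
      have hk : 2 * ((4 * a + 4) / 2) ≤ 4 * a + 4 := by omega
      have h0 := (flips_first (s := s) (a := a) hk).2 ⟨by omega, ha⟩
      unfold ansW an
      rw [pre_length, h0]
      simp only [Option.bind_some]
      rw [evens_pre s (by omega)]
      simp
    · intro k v hv
      unfold ansW at hv
      rw [pre_length] at hv
      rcases h0 : (flips (k / 2) (pre s k))[0]? with _ | a'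
      · rw [h0] at hv; simp at hv
      obtain ⟨_, h2⟩ := (flips_first (s := s) (by omega)).1 h0
      have e := ha.unique h2
      subst e
      rw [h0] at hv
      simp only [Option.bind_some] at hv
      by_cases hle : 4 * a ≤ k
      · simp only [hle, decide_true, cond_true, Option.some.injEq] at hv
        rw [← hv, evens_pre s (by omega)]
        rfl
      · simp [hle] at hv

/-! ### Correctness -/

lemma exists_firstOne {h : ℕ → Bool} (hinf : {n | h n = true}.Infinite) : ∃ a, FirstOne h a := by
  classical
  have h1 : ∃ a, h a = true := hinf.nonempty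
  refine ⟨Nat.find h1, Nat.find_spec h1, fun i hi => ?_⟩
  simpa using Nat.find_min h1 hi

lemma exists_bound {p : ℕ → Bool} (hp : ∀ m n, p m = true → p n = true → m = n) :
    ∃ B, ∀ j, p j = true → j < B := by
  by_cases h : ∃ j, p j = true
  · obtain ⟨j, hj⟩ := h
    refine ⟨j + 1, fun i hi => ?_⟩
    rw [hp i j hi hj]
    exact Nat.lt_succ_self j
  · exact ⟨0, fun j hj => absurd ⟨j, hj⟩ h⟩

/-- no flips after the first element of a homogeneous set -/
lemma no_flip {r h : ℕ → Bool}
    (h1 : ∀ m n, left (right r) m = true → left (right r) n = true → m = n)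
    (h2 : ∀ m n, right (right r) m = true → right (right r) n = true → m = n)
    (hinf : {n | h n = true}.Infinite) {c : ℕ}
    (hhom : ∀ x y, x < y → h x = true → h y = true → colour3 (mapK3 r) x y = c) :
    ∀ x i, h x = true → x ≤ i → right r i = false := by
  intro x i hx hxi
  by_contra hcon
  have hi : right r i = true := by simpa using hcon
  obtain ⟨y, hy, hiy⟩ := hinf.exists_gt i
  have hcol : colour3 (mapK3 r) x y = 2 := by
    unfold colour3
    rw [mapK3_even.2 ⟨i, hxi, hiy, hi⟩]
    rfl
  have hc : c = 2 := by rw [← hhom x y (by omega) hx hy, hcol]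
  obtain ⟨B0, hB0⟩ := exists_bound h1
  obtain ⟨B1, hB1⟩ := exists_bound h2
  obtain ⟨x', hx', hx'B⟩ := hinf.exists_gt (2 * B0 + 2 * B1 + 2)
  obtain ⟨y', hy', hy'x⟩ := hinf.exists_gt x'
  have h3 := hhom x' y' hy'x hx' hy'
  rw [hc] at h3
  have h4 : mapK3 r (2 * Nat.pair x' y') = true := by
    by_contra hne
    have hne' : mapK3 r (2 * Nat.pair x' y') = false := by simpa using hne
    unfold colour3 at h3
    rw [hne'] at h3
    simp only [cond_false] at h3
    have := Bool.toNat_le (mapK3 r (2 * Nat.pair x' y' + 1))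
    omega
  obtain ⟨j, hj1, _, hj3⟩ := mapK3_even.1 h4
  rcases Nat.mod_two_eq_zero_or_one j with h5 | h5
  · have e : left (right r) (j / 2) = true := by
      unfold left
      rw [show 2 * (j / 2) = j by omega]
      exact hj3
    have := hB0 _ e
    omega
  · have e : right (right r) (j / 2) = true := by
      change right r (2 * (j / 2) + 1) = true
      rw [show 2 * (j / 2) + 1 = j by omega]
      exact hj3
    have := hB1 _ e
    omega

lemma non_part3 {r h : ℕ → Bool} (hinf : {n | h n = true}.Infinite) {c : ℕ}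
    (hno : ∀ x i, h x = true → x ≤ i → right r i = false)
    (hhom : ∀ x y, x < y → h x = true → h y = true → colour3 (mapK3 r) x y = c) :
    ¬ ComputableFrom (left r) h := by
  intro hcomp
  refine no_homogeneous hcomp hinf (a := decide (c = 1)) fun x y hxy hx hy => ?_
  have h1 := hhom x y hxy hx hy
  have h2 : mapK3 r (2 * Nat.pair x y) = false := by
    by_contra hne
    have hne' : mapK3 r (2 * Nat.pair x y) = true := by simpa using hne
    obtain ⟨i, hi1, _, hi3⟩ := mapK3_even.1 hne'
    rw [hno x i hx hi1] at hi3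
    exact Bool.false_ne_true hi3
  unfold colour3 at h1
  rw [h2, mapK3_odd] at h1
  simp only [cond_false] at h1
  rw [← h1]
  cases base (pre (left r) y) x <;> rfl

lemma llpo_part3 {r h : ℕ → Bool}
    (hno : ∀ x i, h x = true → x ≤ i → right r i = false) {a : ℕ} (ha : FirstOne h a) {b : ℕ}
    (hb : b < 2)
    (hr : ∀ m n, right r (2 * m + b) = true → right r (2 * n + b) = true → m = n) (n : ℕ) :
    right r (2 * (2 * n + (an r a b).toNat) + b) = false := by
  by_contra hcon
  have hi : right r (2 * (2 * n + (an r a b).toNat) + b) = true := by simpa using hcon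
  have hlt : 2 * (2 * n + (an r a b).toNat) + b < a := by
    by_contra hge
    rw [hno a _ ha.1 (by omega)] at hi
    exact Bool.false_ne_true hi
  rcases hu : an r a b with _ | _
  · rw [hu] at hi hlt
    simp only [Bool.toNat_false, add_zero] at hi hlt
    have : an r a b = true := by
      unfold an
      rw [anyMod_iff]
      exact ⟨2 * (2 * n) + b, (mem_flips_pre r le_rfl).2 ⟨hlt, hi⟩, by omega⟩
    rw [hu] at this
    exact Bool.false_ne_true this
  · rw [hu] at hi
    simp only [Bool.toNat_true] at hi
    have h1 := hu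
    unfold an at h1
    rw [anyMod_iff] at h1
    obtain ⟨i, hi1, hi2⟩ := h1
    have hi3 := ((mem_flips_pre r le_rfl).1 hi1).2
    have e : i = 2 * (2 * (i / 4)) + b := by omega
    rw [e] at hi3
    have := hr _ _ hi hi3
    omega

/-- `NON × LLPO × LLPO` is Weihrauch reducible to Ramsey's theorem for pairs and three colours. -/
theorem t_THREE : THREE := by
  refine ⟨mapH3, fun r => Part.some (mapK3 r), ⟨wordH3, primrec_wordH3.to_comp, fun s q hq =>
    computes_mapH3 hq⟩, ⟨wordK3, primrec_wordK3.to_comp, fun r c hc => ?_⟩, ?_⟩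
  · rw [Part.mem_some_iff.1 hc]
    exact computes_mapK3 r
  · intro G hG r hr
    obtain ⟨_, hr1, hr2⟩ := hr
    have hr1' : ∀ m n, left (right r) m = true → left (right r) n = true → m = n := hr1
    have hr2' : ∀ m n, right (right r) m = true → right (right r) n = true → m = n := hr2
    obtain ⟨h, hhG, hinf, c, hhom⟩ := hG (mapK3 r) (Set.mem_univ _)
    obtain ⟨a, ha⟩ := exists_firstOne hinf
    have hno := no_flip hr1' hr2' hinf hhom
    refine ⟨join h (join (fun _ => an r a 0) (fun _ => an r a 1)), ?_, ?_⟩
    · refine Part.mem_bind (Part.mem_some _) (Part.mem_bind hhG ?_)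
      refine mem_mapH3.2 ⟨a, ?_, ?_⟩
      · rw [right_join]; exact ha
      · unfold out
        rw [right_join, left_join]
    · refine ⟨?_, ?_⟩
      · rw [left_join]
        exact fun ht => non_part3 hinf hno hhom (computableFrom_of_turing ht)
      · rw [right_join]
        refine ⟨?_, ?_⟩
        · rw [left_join]
          exact ⟨_, rfl, fun n => llpo_part3 hno ha (b := 0) (by norm_num) hr1' n⟩
        · rw [right_join]
          exact ⟨_, rfl, fun n => llpo_part3 hno ha (b := 1) (by norm_num) hr2' n⟩

end Pool.Agent.Y235.NG
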